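import Mathlib
import Pool.Agent.H472.PV.Main

set_option autoImplicit false

/-!
# Large values at well-spaced points for supports on the values of few polynomials

The statement of Q1 holds, for all `T` and even without the factor `T^ε` in the conclusion, for all coefficients
bounded by `1` supported on the integers `n ≤ N` that are values, at integers, of the polynomials of a set `B`: `B` is
any set of at most `N^(1/2-μ)` integer-valued polynomials of degree at most `K` (with arbitrary coefficients, which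
may depend on `N`) which have together at most about `N^(1/2+c)` values up to `N`. For instance `B` may consist of
any `N^(1/2-1/k+c)` polynomials of degree `k ≥ 2` with integer coefficients.
-/

namespace Pool.Agent.Results.MP_a93a41_nt.PolynomialValues

open Finset

/-- `D(it) = ∑_{n ≤ N} a_n n^{-it}` -/
noncomputable def D (N : ℕ) (a : ℕ → ℂ) (t : ℝ) : ℂ :=
  ∑ n ∈ Icc 1 N, a n * Complex.exp (-(Complex.I * (t : ℂ) * (Real.log (n : ℝ) : ℂ)))

/-- `B` consists of at most `N^(1/2-μ)` integer-valued polynomials `P` with real coefficients, of degree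
`1 ≤ k_P ≤ K`, and `∑_{P ∈ B} (N / |β_P|)^(1/k_P) ≤ N^(1/2+c)` where `β_P` is the leading coefficient of `P` -/
def Few (N : ℕ) (μ c : ℝ) (K : ℕ) (B : Finset (Polynomial ℝ)) : Prop :=
  (∀ P ∈ B, 1 ≤ P.natDegree ∧ P.natDegree ≤ K ∧ ∀ d : ℤ, ∃ m : ℤ, P.eval (d : ℝ) = m) ∧
    (B.card : ℝ) ≤ (N : ℝ) ^ (1 / 2 - μ) ∧
    ∑ P ∈ B, ((N : ℝ) / |P.leadingCoeff|) ^ ((1 : ℝ) / P.natDegree) ≤ (N : ℝ) ^ (1 / 2 + c)

/-- `n` is a value of a polynomial of `B` at an integer, or an element of `E` -/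
def Supp (B : Finset (Polynomial ℝ)) (E : Finset ℕ) (n : ℕ) : Prop :=
  n ∈ E ∨ ∃ P ∈ B, ∃ d : ℤ, (n : ℝ) = P.eval (d : ℝ)

open Pool.Agent.R516.MS (large) in
open Pool.Agent.TH705.DL (ph ph_norm Sep) in
open Pool.Agent.R327.SI (card_sep) in
/-- Let `ε > 0`, `μ > 0`, `K ≥ 1`. There are `c > 0` and `C` such that for all `T ≥ 1`, all `V > 0` with
`V² ≥ N T^ε`, all `B` with `Few N μ c K B`, all sets `E` of at most `N^(1/2)` integers, all complex `a_1, …, a_N`,
`|a_n| ≤ 1`, supported on the integers that are values of polynomials of `B` or elements of `E`, and all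
`1`-separated `S ⊂ [0,T]` with `|D(it)| ≥ V` on `S`: `|S| ≤ C N² V^(-2)`. -/
theorem result (ε μ : ℝ) (K : ℕ) (hε : 0 < ε) (hμ : 0 < μ) (hK : 1 ≤ K) :
    ∃ c C : ℝ, 0 < c ∧ ∀ (N : ℕ) (B : Finset (Polynomial ℝ)) (E : Finset ℕ) (T V : ℝ) (a : ℕ → ℂ), 1 ≤ N →
      Few N μ c K B → (E.card : ℝ) ≤ (N : ℝ) ^ (1 / 2 : ℝ) → 1 ≤ T → 0 < V → N * T ^ ε ≤ V ^ 2 →
      (∀ n ∈ Icc 1 N, ‖a n‖ ≤ 1) → (∀ n ∈ Icc 1 N, a n ≠ 0 → Supp B E n) →
      ∀ S : Finset ℝ, (∀ t ∈ S, 0 ≤ t ∧ t ≤ T) → (∀ t ∈ S, ∀ u ∈ S, t ≠ u → 1 ≤ |t - u|) →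
        (∀ t ∈ S, V ≤ ‖D N a t‖) → (S.card : ℝ) ≤ C * (N : ℝ) ^ 2 / V ^ 2 := by
  classical
  obtain ⟨c, C0, hc0, hC0, h⟩ := Pool.Agent.H472.PV.mainE (1 / ε) μ K hμ hK
  have hB0 : (1 : ℝ) ≤ (2 * C0) ^ (1 / ε) := Real.one_le_rpow (by linarith) (by positivity)
  refine ⟨c, max (2 * C0) (2 * (2 * C0) ^ (1 / ε)), hc0, ?_⟩
  intro N B E T V a hN hBE hE hT1 hV hVN ha hs S hS hsep hD
  have hN1 : (1 : ℝ) ≤ N := by exact_mod_cast hN
  have hN0 : (0 : ℝ) < N := by linarith
  rcases S.eq_empty_or_nonempty with hSe | ⟨t0, ht0⟩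
  · rw [hSe]
    simp only [card_empty, Nat.cast_zero]
    have : 0 < 2 * C0 := by linarith
    positivity
  have hDph : ∀ t : ℝ, D N a t = ∑ n ∈ Icc 1 N, a n * ph (-t) n := by
    intro t
    unfold D ph
    apply sum_congr rfl
    intro n _
    congr 2
    push_cast
    ring
  have hDN : ∀ t : ℝ, ‖D N a t‖ ≤ N := by
    intro t
    rw [hDph]
    refine (norm_sum_le _ _).trans ?_
    calc ∑ n ∈ Icc 1 N, ‖a n * ph (-t) n‖ ≤ ∑ n ∈ Icc 1 N, (1 : ℝ) := by
          apply sum_le_sum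
          intro n hn
          rw [norm_mul, ph_norm, mul_one]
          exact ha n hn
      _ = N := by rw [sum_const, Nat.card_Icc, nsmul_eq_mul, mul_one, Nat.add_sub_cancel]
  have hVle : V ≤ N := (hD t0 ht0).trans (hDN t0)
  have hVsq : V ^ 2 ≤ (N : ℝ) ^ 2 := pow_le_pow_left₀ hV.le hVle 2
  have hTN : T ≤ (N : ℝ) ^ (1 / ε) := by
    have e1 : T ^ ε ≤ N := by
      have : N * T ^ ε ≤ N * N := by nlinarith
      exact le_of_mul_le_mul_left this hN0
    calc T = (T ^ ε) ^ (1 / ε) := by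
          rw [← Real.rpow_mul (by linarith), mul_one_div_cancel hε.ne', Real.rpow_one]
      _ ≤ (N : ℝ) ^ (1 / ε) := Real.rpow_le_rpow (by positivity) e1 (by positivity)
  rcases le_or_gt (2 * C0 * N) (V ^ 2) with hb | hb
  · set W : Finset ℝ := S.image (fun t => -t) with hW
    have hinj : Set.InjOn (fun t : ℝ => -t) (S : Set ℝ) := fun _ _ _ _ h => neg_injective h
    have hWsep : Sep W := by
      intro t ht u hu hne
      rw [hW, mem_image] at ht hu
      obtain ⟨t', ht', rfl⟩ := ht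
      obtain ⟨u', hu', rfl⟩ := hu
      have hne' : u' ≠ t' := fun e => hne (by rw [e])
      have := hsep u' hu' t' ht' hne'
      have e : -t' - -u' = u' - t' := by ring
      rw [e]
      exact this
    have hWT : ∀ t ∈ W, -T ≤ t ∧ t ≤ -T + T := by
      intro t ht
      rw [hW, mem_image] at ht
      obtain ⟨t', ht', rfl⟩ := ht
      obtain ⟨e1, e2⟩ := hS t' ht'
      constructor <;> linarith
    have h5 := (h N B E hN hBE hE T (-T) W a hTN hWsep hWT hs).1 ha
    have h6 := (large (by linarith) hN0.le W (fun t => ‖∑ n ∈ Icc 1 N, a n * ph t n‖) h5 hV hb (by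
      intro t ht
      rw [hW, mem_image] at ht
      obtain ⟨t', ht', rfl⟩ := ht
      rw [← hDph]
      exact hD t' ht')).1
    have hcard : W.card = S.card := card_image_of_injOn hinj
    rw [hcard] at h6
    refine h6.trans ?_
    have := le_max_left (2 * C0) (2 * (2 * C0) ^ (1 / ε))
    gcongr
  · have e1 : T ^ ε ≤ 2 * C0 := by
      have : N * T ^ ε ≤ N * (2 * C0) := by linarith
      exact le_of_mul_le_mul_left this hN0
    have e2 : T ≤ (2 * C0) ^ (1 / ε) := by
      calc T = (T ^ ε) ^ (1 / ε) := by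
            rw [← Real.rpow_mul (by linarith), mul_one_div_cancel hε.ne', Real.rpow_one]
        _ ≤ _ := Real.rpow_le_rpow (by positivity) e1 (by positivity)
    have e3 := card_sep S hsep 0 T (by linarith) hS
    have e4 : (1 : ℝ) ≤ (N : ℝ) ^ 2 / V ^ 2 := by
      rw [le_div_iff₀ (by positivity)]
      linarith
    have e5 : (S.card : ℝ) ≤ max (2 * C0) (2 * (2 * C0) ^ (1 / ε)) := by
      have := le_max_right (2 * C0) (2 * (2 * C0) ^ (1 / ε))
      linarith
    have e6 : 0 ≤ max (2 * C0) (2 * (2 * C0) ^ (1 / ε)) := by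
      refine le_trans ?_ (le_max_left _ _)
      linarith
    calc (S.card : ℝ) ≤ max (2 * C0) (2 * (2 * C0) ^ (1 / ε)) * 1 := by linarith
      _ ≤ max (2 * C0) (2 * (2 * C0) ^ (1 / ε)) * ((N : ℝ) ^ 2 / V ^ 2) := by gcongr
      _ = _ := by ring

end Pool.Agent.Results.MP_a93a41_nt.PolynomialValues
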